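import Mathlib

/-!
# Digital Kronecker - Van der Corput sequences over a finite field `F` with `q` elements

`LaurentSeries F` is used with its variable playing the role of `t⁻¹`: the element
`∑ a_i t^{-i}` of `F((t⁻¹))` is the Laurent series with `i`-th coefficient `a_i`.
The digit map `E : F ≃ {0,…,q-1}` is an arbitrary bijection with `E 0 = 0`.
-/

namespace Pool.Agent.Lib.MP_05fa0d_nt

open Polynomial

section Defs
variable {F : Type*} [Field F] [Fintype F]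

/-- The embedding `F[t] → F((t⁻¹))`, `t ↦ t` (that is, the inverse of the series variable). -/
noncomputable def embed (N : F[X]) : LaurentSeries F :=
  Polynomial.aeval (HahnSeries.single (-1 : ℤ) (1 : F)) N

open Classical in
/-- The absolute value `|∑_{i ≥ -h} a_i t^{-i}| = q^h` if `a_{-h} ≠ 0`, and `|0| = 0`. -/
noncomputable def absVal (Θ : LaurentSeries F) : ℝ :=
  if Θ = 0 then 0 else (Fintype.card F : ℝ) ^ (-Θ.order)

/-- The fractional part `⟨Θ⟩ = ∑_{i ≥ 1} a_i t^{-i}`. -/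
noncomputable def frac (Θ : LaurentSeries F) : LaurentSeries F where
  coeff i := if 1 ≤ i then Θ.coeff i else 0
  isPWO_support' := by
    refine Θ.isPWO_support.mono ?_
    intro i hi
    simp only [Function.mem_support, ne_eq, ite_eq_right_iff, Classical.not_imp] at hi
    exact hi.2

/-- The set `Bad(P,q)`: the infimum of `|N| |⟨N P^k Θ⟩|` over `N ≠ 0`, `k ≥ 0` is positive. -/
def Bad (P : F[X]) : Set (LaurentSeries F) :=
  {Θ | ∃ c : ℝ, 0 < c ∧ ∀ N : F[X], N ≠ 0 → ∀ k : ℕ,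
    c ≤ absVal (embed N) * absVal (frac (embed (N * P ^ k) * Θ))}

/-- `n(t) = ∑ E⁻¹(d_i) t^i` where `d_i = ⌊n / q^i⌋ mod q` are the base-`q` digits of `n`
(all digits with index `i > n` vanish). -/
noncomputable def digitPoly (E : F ≃ Fin (Fintype.card F)) (n : ℕ) : F[X] :=
  ∑ i ∈ Finset.range (n + 1), Polynomial.monomial i
    (E.symm ⟨n / Fintype.card F ^ i % Fintype.card F, Nat.mod_lt _ Fintype.card_pos⟩)

/-- `ev_q(b) = ∑ E(c_j) q^j` for a polynomial `b = ∑ c_j t^j`. -/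
noncomputable def evPoly (E : F ≃ Fin (Fintype.card F)) (b : F[X]) : ℕ :=
  b.sum (fun j a => (E a : ℕ) * Fintype.card F ^ j)

/-- `ev_q(Θ) = ∑_{i ≥ 1} E(a_i) q^{-i}` for a fractional part `Θ = ∑_{i ≥ 1} a_i t^{-i}`. -/
noncomputable def evFrac (E : F ≃ Fin (Fintype.card F)) (Θ : LaurentSeries F) : ℝ :=
  ∑' i : ℕ, ((E (Θ.coeff ((i : ℤ) + 1)) : ℕ) : ℝ) / (Fintype.card F : ℝ) ^ (i + 1)

/-- The digital Kronecker sequence `K_n(Θ) = ev_q(⟨n(t) Θ⟩)`. -/
noncomputable def kronecker (E : F ≃ Fin (Fintype.card F)) (Θ : LaurentSeries F) (n : ℕ) : ℝ :=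
  evFrac E (frac (embed (digitPoly E n) * Θ))

/-- The digital Van der Corput sequence `V_n(B) = ∑_{i ≥ 0} ev_q(b_i) / |B|^{i+1}`, where
`n(t) = ∑ b_i B^i` with `deg b_i < deg B`, i.e. `b_i = (n(t) div B^i) mod B`, and
`|B| = q^{deg B}`. -/
noncomputable def vanDerCorput (E : F ≃ Fin (Fintype.card F)) (B : F[X]) (n : ℕ) : ℝ :=
  ∑' i : ℕ, (evPoly E ((digitPoly E n / B ^ i) % B) : ℝ) /
    ((Fintype.card F : ℝ) ^ B.natDegree) ^ (i + 1)

end Defs

/-- The star discrepancy of the first `N` terms of a sequence in `[0,1]^2`: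
`D_N = sup_{0 ≤ γ, λ ≤ 1} | #{0 ≤ n < N : H_n ∈ [0,γ) × [0,λ)} / N - γ λ |`. -/
noncomputable def starDisc (H : ℕ → ℝ × ℝ) (N : ℕ) : ℝ :=
  ⨆ z : Set.Icc (0 : ℝ) 1 × Set.Icc (0 : ℝ) 1,
    |(1 / (N : ℝ)) * (Set.ncard {n : ℕ | n < N ∧
        H n ∈ Set.Ico (0 : ℝ) z.1 ×ˢ Set.Ico (0 : ℝ) z.2} : ℝ) - z.1 * z.2|

/-- Low discrepancy: `D_N ≪ (log N)^2 / N` for `N ≥ 2`. -/
def LowDiscrepancy (H : ℕ → ℝ × ℝ) : Prop :=
  ∃ C : ℝ, ∀ N : ℕ, 2 ≤ N → starDisc H N ≤ C * (Real.log N) ^ 2 / N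

end Pool.Agent.Lib.MP_05fa0d_nt
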