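import Mathlib

namespace Pool.Agent.Lib.MP_05fa0d_nt

open Finset

/-- leading-digit integer -/
def kNum (b : ℕ) (f : ℕ → ℕ) : ℕ → ℕ
  | 0 => 0
  | r + 1 => b * kNum b f r + f r

theorem kNum_lt (b : ℕ) (f : ℕ → ℕ) (hf : ∀ i, f i < b) (r : ℕ) : kNum b f r < b ^ r := by
  induction r with
  | zero => simp [kNum]
  | succ r ih =>
    have h1 := hf r
    calc kNum b f (r + 1) = b * kNum b f r + f r := rfl
      _ < b * kNum b f r + b := by omega
      _ = b * (kNum b f r + 1) := by ring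
      _ ≤ b * b ^ r := Nat.mul_le_mul_left _ ih
      _ = b ^ (r + 1) := by ring

theorem kNum_div (b : ℕ) (f : ℕ → ℕ) (hf : ∀ i, f i < b) (r : ℕ) :
    kNum b f (r + 1) / b = kNum b f r := by
  have h0 : 0 < b := lt_of_le_of_lt (Nat.zero_le _) (hf 0)
  rw [kNum, Nat.mul_add_div h0, Nat.div_eq_of_lt (hf r), add_zero]

theorem kNum_partial (b : ℕ) (hb : 0 < b) (f : ℕ → ℕ) (r : ℕ) :
    ∑ i ∈ range r, (f i : ℝ) / (b : ℝ) ^ (i + 1) = (kNum b f r : ℝ) / (b : ℝ) ^ r := by
  have hb' : (b : ℝ) ≠ 0 := by positivity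
  induction r with
  | zero => simp [kNum]
  | succ r ih =>
    rw [sum_range_succ, ih, kNum]
    push_cast
    field_simp
    ring

theorem summable_digits (b : ℕ) (hb : 2 ≤ b) (f : ℕ → ℕ) (hf : ∀ i, f i < b) :
    Summable (fun i => (f i : ℝ) / (b : ℝ) ^ (i + 1)) := by
  have hb' : (1 : ℝ) < b := by exact_mod_cast hb
  have hg : Summable (fun i : ℕ => ((b : ℝ)⁻¹) ^ i) :=
    summable_geometric_of_lt_one (by positivity) (inv_lt_one_of_one_lt₀ hb')
  refine Summable.of_nonneg_of_le (fun i => by positivity) (fun i => ?_) hg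
  have h1 : (f i : ℝ) ≤ b := by exact_mod_cast (hf i).le
  rw [inv_pow, pow_succ, div_le_iff₀ (by positivity)]
  have : ((b : ℝ) ^ i)⁻¹ * ((b : ℝ) ^ i * b) = b := by field_simp
  rw [this]; exact h1

theorem digits_lower (b : ℕ) (hb : 2 ≤ b) (f : ℕ → ℕ) (hf : ∀ i, f i < b) (r : ℕ) :
    (kNum b f r : ℝ) / (b : ℝ) ^ r ≤ ∑' i, (f i : ℝ) / (b : ℝ) ^ (i + 1) := by
  rw [← kNum_partial b (by omega) f r]
  exact (summable_digits b hb f hf).sum_le_tsum _ (fun i _ => by positivity)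

theorem digits_upper (b : ℕ) (hb : 2 ≤ b) (f : ℕ → ℕ) (hf : ∀ i, f i < b) (r : ℕ) :
    ∑' i, (f i : ℝ) / (b : ℝ) ^ (i + 1) ≤ ((kNum b f r : ℝ) + 1) / (b : ℝ) ^ r := by
  have hb0 : 0 < b := by omega
  refine (summable_digits b hb f hf).tsum_le_of_sum_range_le ?_
  intro n
  rw [kNum_partial b hb0 f n]
  -- monotone: (k_n)/(b^n) ≤ (k_r+1)/b^r
  have hmono : ∀ m, ((kNum b f (r + m) : ℝ) + 1) / (b : ℝ) ^ (r + m) ≤
      ((kNum b f r : ℝ) + 1) / (b : ℝ) ^ r := by
    intro m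
    induction m with
    | zero => simp
    | succ m ih =>
      refine le_trans ?_ ih
      rw [← add_assoc, div_le_div_iff₀ (by positivity) (by positivity), kNum]
      have h1 : (f (r + m) : ℝ) + 1 ≤ b := by exact_mod_cast (hf (r + m))
      push_cast
      have hp : (0 : ℝ) < (b : ℝ) ^ (r + m) := by positivity
      calc ((b : ℝ) * (kNum b f (r + m)) + (f (r + m)) + 1) * (b : ℝ) ^ (r + m)
          ≤ ((b : ℝ) * (kNum b f (r + m)) + b) * (b : ℝ) ^ (r + m) := by
            apply mul_le_mul_of_nonneg_right _ hp.le; linarith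
        _ = ((kNum b f (r + m) : ℝ) + 1) * (b : ℝ) ^ (r + m + 1) := by ring
  rcases le_total r n with h | h
  · obtain ⟨m, rfl⟩ := Nat.exists_eq_add_of_le h
    refine le_trans ?_ (hmono m)
    gcongr
    linarith
  · -- n ≤ r : partial sums monotone
    have h2 : (kNum b f n : ℝ) / (b : ℝ) ^ n ≤ (kNum b f r : ℝ) / (b : ℝ) ^ r := by
      rw [← kNum_partial b hb0 f n, ← kNum_partial b hb0 f r]
      apply Finset.sum_le_sum_of_subset_of_nonneg
      · exact Finset.range_mono h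
      · intros; positivity
    refine le_trans h2 ?_
    gcongr
    linarith

/-- one-dimensional counting with equidistributed leading digits -/
theorem count_one (C : Finset ℕ) (k : ℕ → ℕ) (K : ℕ → ℝ) (M m : ℕ) (hM : 0 < M)
    (hm : ∀ j < M, (C.filter (fun n => k n = j)).card = m)
    (hl : ∀ n ∈ C, (k n : ℝ) / M ≤ K n) (hu : ∀ n ∈ C, K n ≤ ((k n : ℝ) + 1) / M)
    (γ : ℝ) (h0 : 0 ≤ γ) (h1 : γ ≤ 1) :
    |((C.filter (fun n => K n < γ)).card : ℝ) - γ * (M * m : ℕ)| ≤ m := by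
  have hM' : (0 : ℝ) < M := by exact_mod_cast hM
  have hcount : ∀ t, t ≤ M → (C.filter (fun n => k n < t)).card = t * m := by
    intro t ht
    induction t with
    | zero => simp
    | succ t ih =>
      have : C.filter (fun n => k n < t + 1) =
          (C.filter (fun n => k n < t)) ∪ (C.filter (fun n => k n = t)) := by
        ext n; simp only [mem_filter, mem_union]; constructor
        · rintro ⟨h, h'⟩
          rcases Nat.lt_succ_iff_lt_or_eq.mp h' with h'' | h''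
          · exact Or.inl ⟨h, h''⟩
          · exact Or.inr ⟨h, h''⟩
        · rintro (⟨h, h'⟩ | ⟨h, h'⟩) <;> exact ⟨h, by omega⟩
      rw [this, card_union_of_disjoint, ih (by omega), hm t (by omega)]
      · ring
      · rw [Finset.disjoint_left]
        intro n hn hn'
        simp only [mem_filter] at hn hn'
        omega
  set t := ⌈γ * M⌉₊ with ht
  have htM : t ≤ M := by
    rw [ht]; apply Nat.ceil_le.mpr; nlinarith
  have ht1 : (t : ℝ) < γ * M + 1 := Nat.ceil_lt_add_one (by positivity)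
  have ht2 : γ * M ≤ t := Nat.le_ceil _
  have hup : (C.filter (fun n => K n < γ)).card ≤ t * m := by
    rw [← hcount t htM]
    apply card_le_card
    intro n hn
    simp only [mem_filter] at hn ⊢
    refine ⟨hn.1, ?_⟩
    rw [ht, Nat.lt_ceil]
    have := hl n hn.1
    rw [div_le_iff₀ hM'] at this
    nlinarith [hn.2]
  have hlo : (t - 1) * m ≤ (C.filter (fun n => K n < γ)).card := by
    rw [← hcount (t - 1) (by omega)]
    apply card_le_card
    intro n hn
    simp only [mem_filter] at hn ⊢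
    refine ⟨hn.1, ?_⟩
    have h3 : k n + 1 < t := by omega
    rw [ht, Nat.lt_ceil] at h3
    push_cast at h3
    have := hu n hn.1
    rw [le_div_iff₀ hM'] at this
    by_contra hcon
    rw [not_lt] at hcon
    nlinarith
  have hup' : ((C.filter (fun n => K n < γ)).card : ℝ) ≤ t * m := by exact_mod_cast hup
  have hlo' : ((t : ℝ) - 1) * m ≤ ((C.filter (fun n => K n < γ)).card : ℝ) := by
    rcases Nat.eq_zero_or_pos t with h | h
    · rw [h]; push_cast
      have : (0 : ℝ) ≤ m := by positivity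
      have h2 : (0:ℝ) ≤ ((C.filter (fun n => K n < γ)).card : ℝ) := by positivity
      linarith
    · have : (((t - 1 : ℕ) : ℝ)) = (t : ℝ) - 1 := by
        rw [Nat.cast_sub h]; simp
      rw [← this]; exact_mod_cast hlo
  have hm0 : (0 : ℝ) ≤ m := by positivity
  push_cast
  rw [abs_le]
  constructor <;> nlinarith


/-- the block -/
def blk (q A L : ℕ) : Finset ℕ := Finset.Ico (A * q ^ L) ((A + 1) * q ^ L)

theorem card_blk (q A L : ℕ) : (blk q A L).card = q ^ L := by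
  simp [blk, add_mul]

section Main
variable (q d c : ℕ) (hq : 2 ≤ q) (hd : 1 ≤ d) (κ ν : ℕ → ℕ → ℕ)
  (hκ : ∀ n i, κ n i < q) (hν : ∀ n i, ν n i < q ^ d)
  (hE : ∀ A L s r, s * d + r + c ≤ L → ∀ k < q ^ r, ∀ v < (q ^ d) ^ s,
    ((blk q A L).filter
      (fun n => kNum q (κ n) r = k ∧ kNum (q ^ d) (ν n) s = v)).card = q ^ (L - s * d - r))

include hq hκ hE in
theorem lemA (A L s : ℕ) (hL : s * d + c ≤ L) (v : ℕ) (hv : v < (q ^ d) ^ s)
    (γ : ℝ) (h0 : 0 ≤ γ) (h1 : γ ≤ 1) :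
    |(((blk q A L).filter (fun n => kNum (q ^ d) (ν n) s = v ∧
        (∑' i, (κ n i : ℝ) / (q : ℝ) ^ (i + 1)) < γ)).card : ℝ) - γ * (q : ℝ) ^ (L - s * d)|
      ≤ (q : ℝ) ^ c := by
  obtain ⟨r, hr⟩ : ∃ r, L = s * d + r + c := ⟨L - s * d - c, by omega⟩
  have key := count_one ((blk q A L).filter (fun n => kNum (q ^ d) (ν n) s = v))
    (fun n => kNum q (κ n) r) (fun n => ∑' i, (κ n i : ℝ) / (q : ℝ) ^ (i + 1))
    (q ^ r) (q ^ c) (by positivity) ?_ ?_ ?_ γ h0 h1
  · rw [Finset.filter_filter] at key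
    have e1 : ((q ^ r * q ^ c : ℕ) : ℝ) = (q : ℝ) ^ (L - s * d) := by
      push_cast
      rw [← pow_add]
      congr 1
      omega
    rw [e1] at key
    push_cast at key
    exact key
  · intro j hj
    rw [Finset.filter_filter]
    have := hE A L s r (by omega) j hj v hv
    have e2 : L - s * d - r = c := by omega
    rw [e2] at this
    rw [← this]
    congr 1
    ext n
    simp only [mem_filter]
    tauto
  · intro n _
    have := digits_lower q hq (κ n) (hκ n) r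
    push_cast
    exact this
  · intro n _
    have := digits_upper q hq (κ n) (hκ n) r
    push_cast
    exact this

include hq hκ hν hE in
theorem lemB (A L : ℕ) (γ : ℝ) (h0 : 0 ≤ γ) (h1 : γ ≤ 1) (s : ℕ) :
    s * d + c ≤ L → ∀ l, l ≤ (q ^ d) ^ s →
    |(((blk q A L).filter (fun n => kNum (q ^ d) (ν n) s < l ∧
        (∑' i, (κ n i : ℝ) / (q : ℝ) ^ (i + 1)) < γ)).card : ℝ) -
        l * γ * (q : ℝ) ^ (L - s * d)|
      ≤ (s * (q : ℝ) ^ d + 1) * (q : ℝ) ^ c := by
  induction s with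
  | zero =>
    intro hL l hl
    have hl' : l = 0 ∨ l = 1 := by
      simp at hl; omega
    rcases hl' with rfl | rfl
    · simp
    · have := lemA q d c hq κ ν hκ hE A L 0 hL 0 (by simp) γ h0 h1
      simp only [kNum, true_and, zero_mul, Nat.sub_zero, zero_lt_one, CharP.cast_eq_zero, zero_add,
        Nat.cast_one, one_mul] at this ⊢
      exact this
  | succ s ih =>
    intro hL l hl
    have hL' : s * d + d + c ≤ L := by rw [add_mul, one_mul] at hL; exact hL
    have hQ : 0 < q ^ d := by positivity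
    obtain ⟨l', ρ, hρ, rfl⟩ : ∃ l' ρ, ρ < q ^ d ∧ l = q ^ d * l' + ρ :=
      ⟨l / q ^ d, l % q ^ d, Nat.mod_lt _ hQ, (Nat.div_add_mod _ _).symm⟩
    have hl' : l' ≤ (q ^ d) ^ s := by
      have : q ^ d * l' ≤ q ^ d * (q ^ d) ^ s := by
        calc q ^ d * l' ≤ q ^ d * l' + ρ := Nat.le_add_right _ _
          _ ≤ (q ^ d) ^ (s + 1) := hl
          _ = q ^ d * (q ^ d) ^ s := by ring
      exact Nat.le_of_mul_le_mul_left this hQ
    have ih' := ih (by omega) l' hl'
    -- partial claim by induction on ρ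
    have step : ∀ ρ, ρ < q ^ d → q ^ d * l' + ρ ≤ (q ^ d) ^ (s + 1) →
        |(((blk q A L).filter (fun n => kNum (q ^ d) (ν n) (s + 1) < q ^ d * l' + ρ ∧
          (∑' i, (κ n i : ℝ) / (q : ℝ) ^ (i + 1)) < γ)).card : ℝ) -
          ((q ^ d * l' + ρ : ℕ) : ℝ) * γ * (q : ℝ) ^ (L - (s + 1) * d)|
        ≤ (s * (q : ℝ) ^ d + 1 + ρ) * (q : ℝ) ^ c := by
      intro ρ
      induction ρ with
      | zero =>
        intro _ _
        have e1 : (blk q A L).filter (fun n => kNum (q ^ d) (ν n) (s + 1) < q ^ d * l' + 0 ∧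
          (∑' i, (κ n i : ℝ) / (q : ℝ) ^ (i + 1)) < γ) =
          (blk q A L).filter (fun n => kNum (q ^ d) (ν n) s < l' ∧
          (∑' i, (κ n i : ℝ) / (q : ℝ) ^ (i + 1)) < γ) := by
          apply Finset.filter_congr
          intro n _
          have h3 := kNum_div (q ^ d) (ν n) (hν n) s
          rw [add_zero, ← h3, Nat.div_lt_iff_lt_mul hQ, mul_comm l']
        rw [e1]
        have e2 : ((q ^ d * l' + 0 : ℕ) : ℝ) * γ * (q : ℝ) ^ (L - (s + 1) * d) =
            l' * γ * (q : ℝ) ^ (L - s * d) := by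
          have : L - s * d = d + (L - (s + 1) * d) := by
            rw [add_mul, one_mul]; omega
          rw [this, pow_add]
          push_cast
          ring
        rw [e2]
        simpa using ih'
      | succ ρ ihρ =>
        intro hρ1 hρ2
        have ih1 := ihρ (by omega) (by omega)
        have e1 : (blk q A L).filter (fun n => kNum (q ^ d) (ν n) (s + 1) < q ^ d * l' + (ρ + 1) ∧
          (∑' i, (κ n i : ℝ) / (q : ℝ) ^ (i + 1)) < γ) =
          (blk q A L).filter (fun n => kNum (q ^ d) (ν n) (s + 1) < q ^ d * l' + ρ ∧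
          (∑' i, (κ n i : ℝ) / (q : ℝ) ^ (i + 1)) < γ) ∪
          (blk q A L).filter (fun n => kNum (q ^ d) (ν n) (s + 1) = q ^ d * l' + ρ ∧
          (∑' i, (κ n i : ℝ) / (q : ℝ) ^ (i + 1)) < γ) := by
          ext n
          simp only [mem_filter, mem_union]
          constructor
          · rintro ⟨h, h', h''⟩
            rcases Nat.lt_succ_iff_lt_or_eq.mp h' with h3 | h3
            · exact Or.inl ⟨h, h3, h''⟩
            · exact Or.inr ⟨h, h3, h''⟩
          · rintro (⟨h, h', h''⟩ | ⟨h, h', h''⟩) <;> exact ⟨h, by omega, h''⟩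
        have e2 : Disjoint ((blk q A L).filter (fun n => kNum (q ^ d) (ν n) (s + 1) < q ^ d * l' + ρ ∧
          (∑' i, (κ n i : ℝ) / (q : ℝ) ^ (i + 1)) < γ))
          ((blk q A L).filter (fun n => kNum (q ^ d) (ν n) (s + 1) = q ^ d * l' + ρ ∧
          (∑' i, (κ n i : ℝ) / (q : ℝ) ^ (i + 1)) < γ)) := by
          rw [Finset.disjoint_left]
          intro n hn hn'
          simp only [mem_filter] at hn hn'
          omega
        rw [e1, card_union_of_disjoint e2]
        have h3 := lemA q d c hq κ ν hκ hE A L (s + 1) (by rw [add_mul, one_mul]; omega)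
          (q ^ d * l' + ρ) (by omega) γ h0 h1
        push_cast at ih1 h3 ⊢
        rw [abs_le] at ih1 h3 ⊢
        constructor <;> nlinarith [ih1.1, ih1.2, h3.1, h3.2]
    refine le_trans (step ρ hρ hl) ?_
    apply mul_le_mul_of_nonneg_right _ (by positivity)
    have : (ρ : ℝ) ≤ (q : ℝ) ^ d := by exact_mod_cast hρ.le
    push_cast
    nlinarith


include hq hd hκ hν hE in
/-- block error, long blocks -/
theorem lemC (A L : ℕ) (hLc : c ≤ L) (γ lam : ℝ) (h0 : 0 ≤ γ) (h1 : γ ≤ 1)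
    (g0 : 0 ≤ lam) (g1 : lam ≤ 1) :
    |(((blk q A L).filter (fun n =>
        (∑' i, (κ n i : ℝ) / (q : ℝ) ^ (i + 1)) < γ ∧
        (∑' i, (ν n i : ℝ) / ((q ^ d : ℕ) : ℝ) ^ (i + 1)) < lam)).card : ℝ) -
        γ * lam * (q : ℝ) ^ L|
      ≤ (L + 1) * (3 * (q : ℝ) ^ d * (q : ℝ) ^ c) := by
  set S := (L - c) / d with hS
  have hSd : S * d + c ≤ L := by
    have := Nat.div_mul_le_self (L - c) d
    rw [← hS] at this
    omega
  have hSd' : L < S * d + d + c := by
    have := Nat.lt_div_mul_add (a := L - c) (b := d) (by omega)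
    rw [← hS] at this
    omega
  have hSL : S ≤ L := by
    have : S ≤ S * d := Nat.le_mul_of_pos_right _ (by omega)
    omega
  have hQ : 0 < q ^ d := by positivity
  have hQ2 : 2 ≤ q ^ d := by
    calc 2 ≤ q := hq
      _ = q ^ 1 := (pow_one q).symm
      _ ≤ q ^ d := Nat.pow_le_pow_right (by omega) hd
  set Kf : ℕ → ℝ := fun n => (∑' i, (κ n i : ℝ) / (q : ℝ) ^ (i + 1)) with hKf
  set Vf : ℕ → ℝ := fun n => (∑' i, (ν n i : ℝ) / ((q ^ d : ℕ) : ℝ) ^ (i + 1)) with hVf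
  set l := ⌊lam * ((q ^ d) ^ S : ℕ)⌋₊ with hl
  have hQS : (0 : ℝ) < (((q ^ d) ^ S : ℕ) : ℝ) := by positivity
  have hlQ : l ≤ (q ^ d) ^ S := by
    rw [hl]
    apply Nat.floor_le_of_le
    nlinarith
  have hl1 : (l : ℝ) ≤ lam * ((q ^ d) ^ S : ℕ) := Nat.floor_le (by positivity)
  have hl2 : lam * ((q ^ d) ^ S : ℕ) < l + 1 := Nat.lt_floor_add_one _
  have hB := lemB q d c hq κ ν hκ hν hE A L γ h0 h1 S hSd l hlQ
  -- points with given leading digits
  have hpt : ∀ v, ((blk q A L).filter (fun n => kNum (q ^ d) (ν n) S = v)).card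
      ≤ q ^ (L - S * d) := by
    intro v
    by_cases hv : v < (q ^ d) ^ S
    · have := hE A L S 0 (by omega) 0 (by simp) v hv
      simp only [kNum, true_and, Nat.sub_zero] at this
      exact this.le
    · have : (blk q A L).filter (fun n => kNum (q ^ d) (ν n) S = v) = ∅ := by
        apply Finset.filter_false_of_mem
        intro n _ h
        exact hv (h ▸ kNum_lt (q ^ d) (ν n) (hν n) S)
      rw [this]
      simp
  have hlow : ∀ n, (kNum (q ^ d) (ν n) S : ℝ) ≤ Vf n * ((q ^ d) ^ S : ℕ) := by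
    intro n
    have := digits_lower (q ^ d) hQ2 (ν n) (hν n) S
    rw [div_le_iff₀ (by positivity)] at this
    rw [hVf]
    push_cast at this ⊢
    exact this
  have hupp : ∀ n, Vf n * ((q ^ d) ^ S : ℕ) ≤ (kNum (q ^ d) (ν n) S : ℝ) + 1 := by
    intro n
    have := digits_upper (q ^ d) hQ2 (ν n) (hν n) S
    rw [le_div_iff₀ (by positivity)] at this
    rw [hVf]
    push_cast at this ⊢
    exact this
  -- upper
  have hup : ((blk q A L).filter (fun n => Kf n < γ ∧ Vf n < lam)).card ≤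
      ((blk q A L).filter (fun n => kNum (q ^ d) (ν n) S < l ∧ Kf n < γ)).card +
        q ^ (L - S * d) := by
    refine le_trans ?_ (Nat.add_le_add_left (hpt l) _)
    refine le_trans (card_le_card ?_) (card_union_le _ _)
    intro n hn
    simp only [mem_filter, mem_union] at hn ⊢
    obtain ⟨hn1, hn2, hn3⟩ := hn
    have h3 : (kNum (q ^ d) (ν n) S : ℝ) < l + 1 := by
      have := hlow n
      have h4 : Vf n * ((q ^ d) ^ S : ℕ) < lam * ((q ^ d) ^ S : ℕ) :=
        mul_lt_mul_of_pos_right hn3 hQS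
      linarith
    have h5 : kNum (q ^ d) (ν n) S < l + 1 := by exact_mod_cast h3
    rcases Nat.lt_succ_iff_lt_or_eq.mp h5 with h6 | h6
    · exact Or.inl ⟨hn1, h6, hn2⟩
    · exact Or.inr ⟨hn1, h6⟩
  have hlo : ((blk q A L).filter (fun n => kNum (q ^ d) (ν n) S < l ∧ Kf n < γ)).card ≤
      ((blk q A L).filter (fun n => Kf n < γ ∧ Vf n < lam)).card + q ^ (L - S * d) := by
    refine le_trans ?_ (Nat.add_le_add_left (hpt (l - 1)) _)
    refine le_trans (card_le_card ?_) (card_union_le _ _)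
    intro n hn
    simp only [mem_filter, mem_union] at hn ⊢
    obtain ⟨hn1, hn2, hn3⟩ := hn
    by_cases h4 : kNum (q ^ d) (ν n) S = l - 1
    · exact Or.inr ⟨hn1, h4⟩
    · left
      refine ⟨hn1, hn3, ?_⟩
      have h5 : kNum (q ^ d) (ν n) S + 1 < l := by omega
      have h6 : (kNum (q ^ d) (ν n) S : ℝ) + 1 < l := by exact_mod_cast h5
      have h7 : Vf n * ((q ^ d) ^ S : ℕ) < lam * ((q ^ d) ^ S : ℕ) := by
        have := hupp n
        linarith
      exact lt_of_mul_lt_mul_right h7 hQS.le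
  have hup' : (((blk q A L).filter (fun n => Kf n < γ ∧ Vf n < lam)).card : ℝ) ≤
      (((blk q A L).filter (fun n => kNum (q ^ d) (ν n) S < l ∧ Kf n < γ)).card : ℝ) +
        (q : ℝ) ^ (L - S * d) := by exact_mod_cast hup
  have hlo' : (((blk q A L).filter (fun n => kNum (q ^ d) (ν n) S < l ∧ Kf n < γ)).card : ℝ) ≤
      (((blk q A L).filter (fun n => Kf n < γ ∧ Vf n < lam)).card : ℝ) +
        (q : ℝ) ^ (L - S * d) := by exact_mod_cast hlo
  have hqL : (q : ℝ) ^ L = (((q ^ d) ^ S : ℕ) : ℝ) * (q : ℝ) ^ (L - S * d) := by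
    push_cast
    rw [← pow_mul, ← pow_add, mul_comm d S]
    congr 1
    omega
  have hsmall : (q : ℝ) ^ (L - S * d) ≤ (q : ℝ) ^ d * (q : ℝ) ^ c := by
    rw [← pow_add]
    apply pow_le_pow_right₀
    · exact_mod_cast (by omega : 1 ≤ q)
    · omega
  have hq1 : (1 : ℝ) ≤ (q : ℝ) ^ d := by
    exact_mod_cast hQ
  have hqc : (0 : ℝ) < (q : ℝ) ^ c := by positivity
  have hSL' : (S : ℝ) ≤ L := by exact_mod_cast hSL
  have hmid : |(l : ℝ) * γ * (q : ℝ) ^ (L - S * d) - γ * lam * (q : ℝ) ^ L| ≤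
      (q : ℝ) ^ (L - S * d) := by
    have h8 : (l : ℝ) * γ * (q : ℝ) ^ (L - S * d) - γ * lam * (q : ℝ) ^ L =
        (γ * (l - lam * (((q ^ d) ^ S : ℕ) : ℝ))) * (q : ℝ) ^ (L - S * d) := by
      rw [hqL]; ring
    rw [h8, abs_mul, abs_of_nonneg (by positivity : (0:ℝ) ≤ (q : ℝ) ^ (L - S * d))]
    have h9 : |γ * (l - lam * (((q ^ d) ^ S : ℕ) : ℝ))| ≤ 1 := by
      rw [abs_mul, abs_of_nonneg h0]
      have : |(l : ℝ) - lam * (((q ^ d) ^ S : ℕ) : ℝ)| ≤ 1 := by
        rw [abs_le]; constructor <;> linarith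
      nlinarith [abs_nonneg ((l : ℝ) - lam * (((q ^ d) ^ S : ℕ) : ℝ))]
    have h10 : (0 : ℝ) < (q : ℝ) ^ (L - S * d) := by positivity
    nlinarith
  have hBb : ((S : ℝ) * (q : ℝ) ^ d + 1) * (q : ℝ) ^ c ≤ (L + 1) * ((q : ℝ) ^ d * (q : ℝ) ^ c) := by
    have : (S : ℝ) * (q : ℝ) ^ d + 1 ≤ (L + 1) * (q : ℝ) ^ d := by nlinarith
    nlinarith
  have hL0 : (0 : ℝ) ≤ L := by positivity
  have hX : (0 : ℝ) < (q : ℝ) ^ d * (q : ℝ) ^ c := by positivity
  rw [abs_le] at hB hmid ⊢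
  constructor <;> nlinarith [hB.1, hB.2, hmid.1, hmid.2]

include hq hd hκ hν hE in
theorem lemD (A L : ℕ) (γ lam : ℝ) (h0 : 0 ≤ γ) (h1 : γ ≤ 1)
    (g0 : 0 ≤ lam) (g1 : lam ≤ 1) :
    |(((blk q A L).filter (fun n =>
        (∑' i, (κ n i : ℝ) / (q : ℝ) ^ (i + 1)) < γ ∧
        (∑' i, (ν n i : ℝ) / ((q ^ d : ℕ) : ℝ) ^ (i + 1)) < lam)).card : ℝ) -
        γ * lam * (q : ℝ) ^ L|
      ≤ (L + 1) * (3 * (q : ℝ) ^ d * (q : ℝ) ^ c) := by
  rcases le_or_gt c L with h | h
  · exact lemC q d c hq hd κ ν hκ hν hE A L h γ lam h0 h1 g0 g1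
  · have hc1 : (((blk q A L).filter (fun n =>
        (∑' i, (κ n i : ℝ) / (q : ℝ) ^ (i + 1)) < γ ∧
        (∑' i, (ν n i : ℝ) / ((q ^ d : ℕ) : ℝ) ^ (i + 1)) < lam)).card : ℝ) ≤ (q : ℝ) ^ L := by
      have := card_filter_le (blk q A L) (fun n =>
        (∑' i, (κ n i : ℝ) / (q : ℝ) ^ (i + 1)) < γ ∧
        (∑' i, (ν n i : ℝ) / ((q ^ d : ℕ) : ℝ) ^ (i + 1)) < lam)
      rw [card_blk] at this
      exact_mod_cast this
    have hc0 : (0 : ℝ) ≤ (((blk q A L).filter (fun n =>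
        (∑' i, (κ n i : ℝ) / (q : ℝ) ^ (i + 1)) < γ ∧
        (∑' i, (ν n i : ℝ) / ((q ^ d : ℕ) : ℝ) ^ (i + 1)) < lam)).card : ℝ) := by positivity
    have hq1 : (1 : ℝ) ≤ q := by exact_mod_cast (by omega : 1 ≤ q)
    have h2 : (q : ℝ) ^ L ≤ (q : ℝ) ^ c := pow_le_pow_right₀ hq1 h.le
    have h3 : (1 : ℝ) ≤ (q : ℝ) ^ d := one_le_pow₀ hq1
    have h4 : (0 : ℝ) < (q : ℝ) ^ L := by positivity
    have h5 : γ * lam ≤ 1 := by nlinarith
    have h6 : 0 ≤ γ * lam := by positivity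
    have hL0 : (0 : ℝ) ≤ L := by positivity
    have h7 : (q : ℝ) ^ c ≤ (L + 1) * (3 * (q : ℝ) ^ d * (q : ℝ) ^ c) := by
      have h8 : (0 : ℝ) < (q : ℝ) ^ c := by positivity
      have h9 : (1 : ℝ) ≤ (L + 1) * (3 * (q : ℝ) ^ d) := by nlinarith
      nlinarith
    rw [abs_le]
    constructor <;> nlinarith

include hq hd hκ hν hE in
/-- initial segments of aligned blocks -/
theorem lemE (γ lam : ℝ) (h0 : 0 ≤ γ) (h1 : γ ≤ 1)
    (g0 : 0 ≤ lam) (g1 : lam ≤ 1) (m : ℕ) : ∀ A N, N < q ^ m →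
    |(((Finset.Ico (A * q ^ m) (A * q ^ m + N)).filter (fun n =>
        (∑' i, (κ n i : ℝ) / (q : ℝ) ^ (i + 1)) < γ ∧
        (∑' i, (ν n i : ℝ) / ((q ^ d : ℕ) : ℝ) ^ (i + 1)) < lam)).card : ℝ) -
        γ * lam * N|
      ≤ m * (m + 1) * (q * (3 * (q : ℝ) ^ d * (q : ℝ) ^ c)) := by
  set W : ℝ := 3 * (q : ℝ) ^ d * (q : ℝ) ^ c with hW
  have hW0 : 0 < W := by positivity
  set p : ℕ → Prop := fun n => (∑' i, (κ n i : ℝ) / (q : ℝ) ^ (i + 1)) < γ ∧
        (∑' i, (ν n i : ℝ) / ((q ^ d : ℕ) : ℝ) ^ (i + 1)) < lam with hp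
  have hsplit : ∀ a b c' : ℕ, a ≤ b → b ≤ c' →
      (((Finset.Ico a c').filter p).card : ℝ) =
        (((Finset.Ico a b).filter p).card : ℝ) + (((Finset.Ico b c').filter p).card : ℝ) := by
    intro a b c' hab hbc
    rw [← Nat.cast_add, ← card_union_of_disjoint, ← Finset.filter_union,
      Finset.Ico_union_Ico_eq_Ico hab hbc]
    apply Finset.disjoint_filter_filter
    exact Finset.Ico_disjoint_Ico_consecutive a b c'
  induction m with
  | zero =>
    intro A N hN
    have : N = 0 := by simpa using hN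
    subst this
    simp
  | succ m ih =>
    intro A N hN
    have hqm : 0 < q ^ m := by positivity
    obtain ⟨ρ, N'', hN'', hρ, rfl⟩ : ∃ ρ N'', N'' < q ^ m ∧ ρ < q ∧ N = ρ * q ^ m + N'' := by
      refine ⟨N / q ^ m, N % q ^ m, Nat.mod_lt _ hqm, ?_, ?_⟩
      · rw [Nat.div_lt_iff_lt_mul hqm]
        calc N < q ^ (m + 1) := hN
          _ = q * q ^ m := by ring
      · rw [mul_comm]; exact (Nat.div_add_mod _ _).symm
    -- rho blocks
    have hblocks : ∀ ρ : ℕ, ρ ≤ q →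
        |(((Finset.Ico (A * q ^ (m + 1)) (A * q ^ (m + 1) + ρ * q ^ m)).filter p).card : ℝ) -
          γ * lam * (ρ * q ^ m : ℕ)| ≤ ρ * ((m + 1) * W) := by
      intro ρ
      induction ρ with
      | zero => simp
      | succ ρ ihρ =>
        intro hρ1
        have ih1 := ihρ (by omega)
        rw [hsplit _ (A * q ^ (m + 1) + ρ * q ^ m) _ (by omega) (by
          rw [add_mul ρ 1]; omega)]
        have e1 : Finset.Ico (A * q ^ (m + 1) + ρ * q ^ m) (A * q ^ (m + 1) + (ρ + 1) * q ^ m)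
            = blk q (A * q + ρ) m := by
          unfold blk
          congr 1 <;> ring
        rw [e1]
        have h3 := lemD q d c hq hd κ ν hκ hν hE (A * q + ρ) m γ lam h0 h1 g0 g1
        rw [← hW] at h3
        change |(((blk q (A * q + ρ) m).filter p).card : ℝ) - _| ≤ _ at h3
        push_cast at ih1 ⊢
        rw [abs_le] at ih1 h3 ⊢
        constructor <;> nlinarith [ih1.1, ih1.2, h3.1, h3.2]
    have hb := hblocks ρ hρ.le
    have hr := ih (A * q + ρ) N'' hN''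
    have e2 : (A * q + ρ) * q ^ m = A * q ^ (m + 1) + ρ * q ^ m := by ring
    rw [e2] at hr
    rw [hsplit _ (A * q ^ (m + 1) + ρ * q ^ m) _ (by omega) (by omega)]
    have e3 : A * q ^ (m + 1) + (ρ * q ^ m + N'') = A * q ^ (m + 1) + ρ * q ^ m + N'' := by ring
    rw [e3]
    have hρ' : (ρ : ℝ) ≤ q := by exact_mod_cast hρ.le
    have hm0 : (0 : ℝ) ≤ m := by positivity
    have hq0 : (0 : ℝ) ≤ q := by positivity
    have h5 : (ρ : ℝ) * ((m + 1) * W) ≤ q * ((m + 1) * W) :=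
      mul_le_mul_of_nonneg_right hρ' (by positivity)
    have h6 : (q : ℝ) * ((m + 1) * W) + m * (m + 1) * (q * W) ≤
        (m + 1) * ((m + 1) + 1) * (q * W) := by
      have : (0 : ℝ) ≤ q * W := by positivity
      nlinarith
    push_cast at hb ⊢
    rw [abs_le] at hb hr ⊢
    constructor <;> nlinarith [hb.1, hb.2, hr.1, hr.2]

include hq hd hκ hν hE in
/-- global bound -/
theorem lemF : ∃ C : ℝ, 0 ≤ C ∧ ∀ N : ℕ, 2 ≤ N → ∀ γ lam : ℝ, 0 ≤ γ → γ ≤ 1 → 0 ≤ lam → lam ≤ 1 →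
    |(((Finset.range N).filter (fun n =>
        (∑' i, (κ n i : ℝ) / (q : ℝ) ^ (i + 1)) < γ ∧
        (∑' i, (ν n i : ℝ) / ((q ^ d : ℕ) : ℝ) ^ (i + 1)) < lam)).card : ℝ) -
        γ * lam * N|
      ≤ C * (Real.log N) ^ 2 := by
  set W : ℝ := q * (3 * (q : ℝ) ^ d * (q : ℝ) ^ c) with hW
  have hW0 : 0 < W := by positivity
  refine ⟨6 * W / (Real.log 2) ^ 2, by positivity, ?_⟩
  intro N hN γ lam h0 h1 g0 g1
  set m := Nat.log q N + 1 with hm
  have hNm : N < q ^ m := Nat.lt_pow_succ_log_self (by omega) N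
  have key := lemE q d c hq hd κ ν hκ hν hE γ lam h0 h1 g0 g1 m 0 N hNm
  rw [← hW] at key
  have e1 : Finset.Ico (0 * q ^ m) (0 * q ^ m + N) = Finset.range N := by
    simp
  rw [e1] at key
  refine le_trans key ?_
  have hlog2 : 0 < Real.log 2 := Real.log_pos (by norm_num)
  have hlogN : Real.log 2 ≤ Real.log N := Real.log_le_log (by norm_num) (by exact_mod_cast hN)
  have hm1 : ((Nat.log q N : ℕ) : ℝ) * Real.log 2 ≤ Real.log N := by
    have h3 : q ^ (Nat.log q N) ≤ N := Nat.pow_log_le_self q (by omega)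
    have h4 : ((q : ℝ) ^ (Nat.log q N)) ≤ N := by exact_mod_cast h3
    have h5 : Real.log ((q : ℝ) ^ (Nat.log q N)) ≤ Real.log N :=
      Real.log_le_log (by positivity) h4
    rw [Real.log_pow] at h5
    have h6 : Real.log 2 ≤ Real.log q := Real.log_le_log (by norm_num) (by exact_mod_cast hq)
    have h7 : (0 : ℝ) ≤ (Nat.log q N : ℕ) := by positivity
    nlinarith
  have hm2 : (m : ℝ) * Real.log 2 ≤ 2 * Real.log N := by
    rw [hm]; push_cast; nlinarith
  have hm3 : ((m : ℝ) + 1) * Real.log 2 ≤ 3 * Real.log N := by nlinarith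
  have hm0 : (0 : ℝ) ≤ m := by positivity
  have hprod : ((m : ℝ) * Real.log 2) * (((m : ℝ) + 1) * Real.log 2) ≤
      (2 * Real.log N) * (3 * Real.log N) := by
    apply mul_le_mul hm2 hm3 (by positivity) (by nlinarith)
  rw [div_mul_eq_mul_div, le_div_iff₀ (by positivity)]
  nlinarith

end Main

end Pool.Agent.Lib.MP_05fa0d_nt
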