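import Mathlib
import Pool.Agent.Lib.MP_05fa0d_nt.Defs
import Pool.Agent.Lib.MP_05fa0d_nt.Digits

namespace Pool.Agent.Lib.MP_05fa0d_nt

open Polynomial Finset Classical

section Aux
set_option linter.unusedSectionVars false
variable {F : Type*} [Field F] [Fintype F]

theorem embed_monomial (j : ℕ) (a : F) :
    embed (Polynomial.monomial j a) = HahnSeries.single (-(j : ℤ)) a := by
  unfold embed
  rw [Polynomial.aeval_monomial, HahnSeries.single_pow, LaurentSeries.algebraMap_apply,
    HahnSeries.C_apply, HahnSeries.single_mul_single]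
  simp

theorem embed_add (M N : F[X]) : embed (M + N) = embed M + embed N := by
  simp [embed]

theorem embed_mul (M N : F[X]) : embed (M * N) = embed M * embed N := by
  simp [embed]


theorem embed_zero : embed (0 : F[X]) = 0 := by
  simp [embed]

theorem coeff_embed_mul (N : F[X]) (Θ : LaurentSeries F) (i : ℤ) :
    (embed N * Θ).coeff i = N.sum (fun j a => a * Θ.coeff (i + j)) := by
  induction N using Polynomial.induction_on' with
  | add p q hp hq =>
    rw [embed_add, add_mul, HahnSeries.coeff_add, hp, hq, Polynomial.sum_add_index]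
    · intro i; simp
    · intro i a b; ring
  | monomial n a =>
    rw [embed_monomial, Polynomial.sum_monomial_index _ _ (by simp)]
    have := HahnSeries.coeff_single_mul_add (r := a) (x := Θ) (a := i + n) (b := -(n : ℤ))
    simpa using this

theorem coeff_embed_smul_mul (c : F) (N : F[X]) (Θ : LaurentSeries F) (i : ℤ) :
    (embed (c • N) * Θ).coeff i = c * (embed N * Θ).coeff i := by
  rw [coeff_embed_mul, coeff_embed_mul, Polynomial.sum_smul_index _ _ _ (by simp),
    Polynomial.sum_def, Polynomial.sum_def, Finset.mul_sum]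
  apply Finset.sum_congr rfl
  intro j _
  ring

theorem absVal_le (Θ : LaurentSeries F) (m : ℤ) (h : ∀ i < m, Θ.coeff i = 0) :
    absVal Θ ≤ (Fintype.card F : ℝ) ^ (-m) := by
  have hq : 1 < Fintype.card F := Fintype.one_lt_card
  have hq' : (1 : ℝ) ≤ Fintype.card F := by exact_mod_cast hq.le
  unfold absVal
  split_ifs with h0
  · positivity
  · apply zpow_le_zpow_right₀ hq'
    have h1 : Θ.coeff Θ.order ≠ 0 := HahnSeries.coeff_order_eq_zero.not.mpr h0
    have h2 : m ≤ Θ.order := by
      by_contra hcon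
      rw [not_le] at hcon
      exact h1 (h _ hcon)
    omega

theorem absVal_nonneg (Θ : LaurentSeries F) : 0 ≤ absVal Θ := by
  unfold absVal
  split_ifs <;> positivity

theorem absVal_embed_le (U : F[X]) (m : ℕ) (hU : U.degree < m) :
    absVal (embed U) ≤ (Fintype.card F : ℝ) ^ ((m : ℤ) - 1) := by
  have := absVal_le (embed U) (-((m : ℤ) - 1)) ?_
  · simpa using this
  · intro i hi
    have h1 := coeff_embed_mul U 1 i
    rw [mul_one] at h1
    rw [h1]
    rw [Polynomial.sum_def]
    apply Finset.sum_eq_zero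
    intro j hj
    have h2 : j < m := by
      have := Polynomial.le_degree_of_mem_supp j hj
      have h3 := lt_of_le_of_lt this hU
      exact_mod_cast h3
    have h4 : i + (j : ℤ) ≠ 0 := by omega
    rw [HahnSeries.coeff_one, if_neg h4, mul_zero]

/-- digit sums -/
theorem digit_sum_lt (q : ℕ) (a : ℕ → ℕ) (ha : ∀ j, a j < q) (m : ℕ) :
    ∑ j ∈ range m, a j * q ^ j < q ^ m := by
  induction m with
  | zero => simp
  | succ m ih =>
    rw [sum_range_succ]
    have h1 := ha m
    calc ∑ j ∈ range m, a j * q ^ j + a m * q ^ m < q ^ m + a m * q ^ m := by omega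
      _ = (a m + 1) * q ^ m := by ring
      _ ≤ q * q ^ m := Nat.mul_le_mul_right _ h1
      _ = q ^ (m + 1) := by ring

theorem digit_sum_digit (q : ℕ) (hq : 0 < q) (a : ℕ → ℕ) (ha : ∀ j, a j < q) (m i : ℕ) :
    (∑ j ∈ range m, a j * q ^ j) / q ^ i % q = if i < m then a i else 0 := by
  induction m with
  | zero => simp
  | succ m ih =>
    rcases lt_trichotomy i m with h | h | h
    · rw [if_pos (by omega)]
      rw [if_pos h] at ih
      rw [sum_range_succ]
      have e1 : a m * q ^ m = q ^ i * (q * (a m * q ^ (m - i - 1))) := by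
        have : m = i + (1 + (m - i - 1)) := by omega
        conv_lhs => rw [this, pow_add, pow_add]
        rw [← this]
        ring
      rw [e1, Nat.add_mul_div_left _ _ (by positivity), Nat.add_mul_mod_self_left]
      exact ih
    · subst h
      rw [if_pos (by omega), sum_range_succ, mul_comm (a i), Nat.add_mul_div_left _ _ (by positivity),
        Nat.div_eq_of_lt (digit_sum_lt q a ha i), zero_add, Nat.mod_eq_of_lt (ha i)]
    · rw [if_neg (by omega)]
      have h1 := digit_sum_lt q a ha (m + 1)
      have h2 : q ^ (m + 1) ≤ q ^ i := Nat.pow_le_pow_right hq (by omega)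
      rw [Nat.div_eq_of_lt (by omega), Nat.zero_mod]

theorem sum_digits (q : ℕ) (n m : ℕ) :
    ∑ j ∈ range m, (n / q ^ j % q) * q ^ j = n % q ^ m := by
  induction m with
  | zero => simp [Nat.mod_one]
  | succ m ih =>
    rw [sum_range_succ, ih, Nat.mod_pow_succ]
    ring

variable (E : F ≃ Fin (Fintype.card F)) (hE0 : (E 0 : ℕ) = 0)

include hE0 in
theorem E_symm_zero (h : 0 < Fintype.card F) : E.symm ⟨0, h⟩ = 0 := by
  rw [Equiv.symm_apply_eq]
  apply Fin.ext
  simp [hE0]

include hE0 in
theorem digitPoly_coeff (n i : ℕ) : (digitPoly E n).coeff i =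
    E.symm ⟨n / Fintype.card F ^ i % Fintype.card F, Nat.mod_lt _ Fintype.card_pos⟩ := by
  unfold digitPoly
  rw [Polynomial.finsetSum_coeff]
  simp only [Polynomial.coeff_monomial]
  by_cases h : i < n + 1
  · rw [Finset.sum_eq_single i]
    · simp
    · intro b _ hb; rw [if_neg hb]
    · intro h'; simp at h'; omega
  · rw [Finset.sum_eq_zero]
    · have h2 : n / Fintype.card F ^ i % Fintype.card F = 0 := by
        have h3 : n < Fintype.card F ^ i := by
          calc n < i := by omega
            _ < Fintype.card F ^ i := Nat.lt_pow_self Fintype.one_lt_card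
        rw [Nat.div_eq_of_lt h3, Nat.zero_mod]
      simp only [h2]
      rw [E_symm_zero E hE0]
    · intro b hb
      simp only [Finset.mem_range] at hb
      rw [if_neg (by omega)]

include hE0 in
theorem evPoly_eq (b : F[X]) (m : ℕ) (hb : b.degree < m) :
    evPoly E b = ∑ j ∈ range m, (E (b.coeff j) : ℕ) * Fintype.card F ^ j := by
  unfold evPoly
  by_cases h0 : b = 0
  · subst h0
    simp [hE0]
  · apply Polynomial.sum_over_range' b _ m
    · exact (Polynomial.natDegree_lt_iff_degree_lt h0).mpr hb
    · intro n; simp [hE0]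

include hE0 in
theorem evPoly_lt (b : F[X]) (m : ℕ) (hb : b.degree < m) :
    evPoly E b < Fintype.card F ^ m := by
  rw [evPoly_eq E hE0 b m hb]
  exact digit_sum_lt _ (fun j => (E (b.coeff j) : ℕ)) (fun j => (E (b.coeff j)).2) m

include hE0 in
theorem evPoly_digitPoly (n : ℕ) : evPoly E (digitPoly E n) = n := by
  have hd : (digitPoly E n).degree < (n + 1 : ℕ) := by
    rw [Polynomial.degree_lt_iff_coeff_zero]
    intro i hi
    rw [digitPoly_coeff E hE0]
    have h2 : n / Fintype.card F ^ i % Fintype.card F = 0 := by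
      have h3 : n < Fintype.card F ^ i := by
        calc n < i := by omega
          _ < Fintype.card F ^ i := Nat.lt_pow_self Fintype.one_lt_card
      rw [Nat.div_eq_of_lt h3, Nat.zero_mod]
    simp only [h2]
    rw [E_symm_zero E hE0]
  rw [evPoly_eq E hE0 _ _ hd]
  simp only [digitPoly_coeff E hE0, Equiv.apply_symm_apply]
  rw [sum_digits]
  apply Nat.mod_eq_of_lt
  calc n < n + 1 := Nat.lt_succ_self n
    _ < Fintype.card F ^ (n + 1) := Nat.lt_pow_self Fintype.one_lt_card

include hE0 in
theorem digitPoly_evPoly (b : F[X]) : digitPoly E (evPoly E b) = b := by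
  ext i
  rw [digitPoly_coeff E hE0, Equiv.symm_apply_eq]
  apply Fin.ext
  simp only
  have hb : b.degree < (b.natDegree + 1 : ℕ) := by
    refine lt_of_le_of_lt Polynomial.degree_le_natDegree ?_
    exact_mod_cast Nat.lt_succ_self _
  rw [evPoly_eq E hE0 b _ hb]
  rw [digit_sum_digit _ Fintype.card_pos (fun j => (E (b.coeff j) : ℕ)) (fun j => (E (b.coeff j)).2)]
  split_ifs with h
  · rfl
  · rw [Polynomial.coeff_eq_zero_of_natDegree_lt (by omega), hE0]

include hE0 in
theorem evPoly_injective : Function.Injective (evPoly E) :=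
  Function.LeftInverse.injective (g := digitPoly E) (digitPoly_evPoly E hE0)

include hE0 in
theorem evPoly_block (a x : F[X]) (L : ℕ) (hx : x.degree < L) :
    evPoly E (Polynomial.X ^ L * a + x) = evPoly E a * Fintype.card F ^ L + evPoly E x := by
  set m := a.natDegree + 1 with hm
  have ha : a.degree < m := by
    refine lt_of_le_of_lt Polynomial.degree_le_natDegree ?_
    exact_mod_cast Nat.lt_succ_self _
  have hc : ∀ j, (Polynomial.X ^ L * a + x).coeff j = if L ≤ j then a.coeff (j - L) else x.coeff j := by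
    intro j
    rw [Polynomial.coeff_add, Polynomial.coeff_X_pow_mul']
    split_ifs with h
    · rw [Polynomial.degree_lt_iff_coeff_zero] at hx
      rw [hx j h, add_zero]
    · rw [zero_add]
  have hsum : (Polynomial.X ^ L * a + x).degree < ((L + m : ℕ) : WithBot ℕ) := by
    rw [Polynomial.degree_lt_iff_coeff_zero]
    intro j hj
    rw [hc, if_pos (by omega)]
    apply Polynomial.coeff_eq_zero_of_natDegree_lt
    omega
  rw [evPoly_eq E hE0 _ _ hsum, evPoly_eq E hE0 a m ha, evPoly_eq E hE0 x L hx,
    Finset.sum_range_add, add_comm, Finset.sum_mul]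
  congr 1
  · apply Finset.sum_congr rfl
    intro j _
    rw [hc, if_pos (by omega), Nat.add_sub_cancel_left, pow_add]
    ring
  · apply Finset.sum_congr rfl
    intro j hj
    simp only [Finset.mem_range] at hj
    rw [hc, if_neg (by omega)]


/-- the linear map `M ↦ (first r digits of ⟨M Ψ⟩)`. -/
noncomputable def T (Ψ : LaurentSeries F) (L r : ℕ) : degreeLT F L →ₗ[F] (Fin r → F) where
  toFun M i := (embed (M : F[X]) * Ψ).coeff ((i : ℕ) + 1 : ℤ)
  map_add' M N := by
    ext i
    simp [embed_add, add_mul]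
  map_smul' a M := by
    ext i
    simp [coeff_embed_smul_mul]

theorem T_surj (Ψ : LaurentSeries F) (L r : ℕ)
    (h : ∀ U : F[X], U ≠ 0 → U.degree < r →
      ∃ j : ℕ, j < L ∧ (embed U * Ψ).coeff ((j : ℤ) + 1) ≠ 0) :
    Function.Surjective (T Ψ L r) := by
  rw [← LinearMap.range_eq_top]
  by_contra hcon
  obtain ⟨f, hf0, hf⟩ := Submodule.exists_dual_map_eq_bot_of_lt_top
    (lt_top_iff_ne_top.mpr hcon) inferInstance
  set u : Fin r → F := fun i => f (Pi.single i 1) with hu
  have hfu : ∀ w : Fin r → F, f w = ∑ i, w i * u i := by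
    intro w
    have hw : w = ∑ i, w i • (Pi.single i (1 : F) : Fin r → F) := by
      ext j
      simp [Finset.sum_apply, Pi.single_apply]
    conv_lhs => rw [hw]
    rw [map_sum]
    apply Finset.sum_congr rfl
    intro i _
    rw [map_smul, smul_eq_mul]
  set U : F[X] := ∑ i : Fin r, Polynomial.monomial (i : ℕ) (u i) with hU
  have hUc : ∀ i : Fin r, U.coeff i = u i := by
    intro i
    rw [hU, Polynomial.finsetSum_coeff, Finset.sum_eq_single i]
    · simp
    · intro b _ hb
      rw [Polynomial.coeff_monomial, if_neg]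
      intro h'; exact hb (Fin.ext h')
    · simp
  have hUd : U.degree < r := by
    rw [Polynomial.degree_lt_iff_coeff_zero]
    intro j hj
    rw [hU, Polynomial.finsetSum_coeff]
    apply Finset.sum_eq_zero
    intro i _
    rw [Polynomial.coeff_monomial, if_neg]
    have := i.2
    omega
  have hU0 : U ≠ 0 := by
    intro h0
    apply hf0
    ext w
    have : ∀ i, u i = 0 := by
      intro i
      rw [← hUc i, h0, Polynomial.coeff_zero]
    simp [hfu, this]
  obtain ⟨j, hj, hne⟩ := h U hU0 hUd
  apply hne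
  have hmem : (Polynomial.X ^ j : F[X]) ∈ degreeLT F L := by
    rw [Polynomial.mem_degreeLT, Polynomial.degree_X_pow]
    exact_mod_cast hj
  have h1 : f (T Ψ L r ⟨Polynomial.X ^ j, hmem⟩) = 0 := by
    have h2 : f (T Ψ L r ⟨Polynomial.X ^ j, hmem⟩) ∈ Submodule.map f (LinearMap.range (T Ψ L r)) :=
      Submodule.mem_map_of_mem (LinearMap.mem_range_self _ _)
    rw [hf] at h2
    exact (Submodule.mem_bot F).mp h2
  rw [hfu] at h1
  have h3 : ∀ i : Fin r, T Ψ L r ⟨Polynomial.X ^ j, hmem⟩ i = Ψ.coeff (((i : ℕ) : ℤ) + 1 + j) := by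
    intro i
    change (embed (Polynomial.X ^ j : F[X]) * Ψ).coeff (((i : ℕ) : ℤ) + 1) = _
    rw [coeff_embed_mul, ← Polynomial.monomial_one_right_eq_X_pow,
      Polynomial.sum_monomial_index _ _ (by simp), one_mul]
  rw [coeff_embed_mul, Polynomial.sum_over_range' U (by simp) r
    ((Polynomial.natDegree_lt_iff_degree_lt hU0).mpr hUd), Finset.sum_range]
  rw [← h1]
  apply Finset.sum_congr rfl
  intro i _
  rw [h3, hUc, mul_comm]
  congr 2
  ring

theorem card_fiber (Ψ : LaurentSeries F) (L r : ℕ) (hr : r ≤ L)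
    (hs : Function.Surjective (T Ψ L r)) (w : Fin r → F) :
    Set.ncard {M : degreeLT F L | T Ψ L r M = w} = Fintype.card F ^ (L - r) := by
  have : Finite (degreeLT F L) := Finite.of_equiv _ (Polynomial.degreeLTEquiv F L).toEquiv.symm
  have : Fintype (degreeLT F L) := Fintype.ofFinite _
  have hcard : Fintype.card (degreeLT F L) = Fintype.card F ^ L := by
    rw [Fintype.card_congr (Polynomial.degreeLTEquiv F L).toEquiv]
    simp
  have h1 : ∀ w' : Fin r → F, (Finset.univ.filter (fun M => T Ψ L r M = w')).card =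
      (Finset.univ.filter (fun M => T Ψ L r M = w)).card := by
    intro w'
    exact AddMonoidHom.card_fiber_eq_of_mem_range (T Ψ L r) (hs w') (hs w)
  have h2 : Fintype.card F ^ L = Fintype.card F ^ r *
      (Finset.univ.filter (fun M => T Ψ L r M = w)).card := by
    rw [← hcard, ← Finset.card_univ, Finset.card_eq_sum_card_fiberwise
      (f := T Ψ L r) (t := Finset.univ) (by intro x _; simp)]
    rw [Finset.sum_congr rfl (fun w' _ => h1 w')]
    simp
  have h3 : Fintype.card F ^ L = Fintype.card F ^ r * Fintype.card F ^ (L - r) := by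
    rw [← pow_add]; congr 1; omega
  have h4 : (Finset.univ.filter (fun M => T Ψ L r M = w)).card = Fintype.card F ^ (L - r) := by
    have h5 : 0 < Fintype.card F ^ r := pow_pos Fintype.card_pos _
    exact Nat.eq_of_mul_eq_mul_left h5 (h2.symm.trans h3)
  rw [← h4, Set.ncard_eq_toFinset_card']
  congr 1
  ext M
  simp


/-- From Bad: a uniform surjectivity constant. -/
theorem bad_surj (P : F[X]) (Θ : LaurentSeries F) (hΘ : Θ ∈ Bad P) :
    ∃ c : ℕ, ∀ s L r : ℕ, r + c ≤ L → Function.Surjective (T (embed (P ^ s) * Θ) L r) := by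
  obtain ⟨c0, hc0, hbad⟩ := hΘ
  have hq : 1 < Fintype.card F := Fintype.one_lt_card
  have hq' : (1 : ℝ) < Fintype.card F := by exact_mod_cast hq
  obtain ⟨c, hc⟩ := exists_pow_lt_of_lt_one hc0 (inv_lt_one_of_one_lt₀ hq')
  refine ⟨c, ?_⟩
  intro s L r hL
  apply T_surj
  intro U hU0 hUd
  by_contra hcon
  simp only [not_exists, not_and, not_not] at hcon
  have h1 := hbad U hU0 s
  have h2 : absVal (frac (embed (U * P ^ s) * Θ)) ≤ (Fintype.card F : ℝ) ^ (-((L : ℤ) + 1)) := by
    apply absVal_le
    intro i hi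
    change (if 1 ≤ i then (embed (U * P ^ s) * Θ).coeff i else 0) = 0
    split_ifs with h3
    · have h4 := hcon (i - 1).toNat (by omega)
      rw [embed_mul, mul_assoc]
      have h5 : (((i - 1).toNat : ℤ)) + 1 = i := by omega
      rw [h5] at h4
      exact h4
    · rfl
  have h3 := absVal_embed_le U r hUd
  have h4 : absVal (embed U) * absVal (frac (embed (U * P ^ s) * Θ)) ≤
      (Fintype.card F : ℝ) ^ ((r : ℤ) - 1) * (Fintype.card F : ℝ) ^ (-((L : ℤ) + 1)) :=
    mul_le_mul h3 h2 (absVal_nonneg _) (by positivity)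
  rw [← zpow_add₀ (by positivity)] at h4
  have h5 : (Fintype.card F : ℝ) ^ ((r : ℤ) - 1 + -((L : ℤ) + 1)) ≤
      (Fintype.card F : ℝ) ^ (-(c : ℤ)) := by
    apply zpow_le_zpow_right₀ hq'.le
    omega
  have h6 : (Fintype.card F : ℝ) ^ (-(c : ℤ)) = ((Fintype.card F : ℝ)⁻¹) ^ c := by
    rw [zpow_neg, zpow_natCast, inv_pow]
  rw [h6] at h5
  linarith

theorem mod_eq_of (P p R : F[X]) (hP : P ≠ 0) (hR : R.degree < P.degree) (h : P ∣ p - R) :
    p % P = R := by
  have h1 : (p - R) % P = 0 := (EuclideanDomain.mod_eq_zero).mpr h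
  rw [Polynomial.sub_mod, (Polynomial.mod_eq_self_iff hP).mpr hR, sub_eq_zero] at h1
  exact h1

theorem dvd_sub_mod (P p : F[X]) : P ∣ p - p % P := by
  refine ⟨p / P, ?_⟩
  have := EuclideanDomain.div_add_mod p P
  linear_combination -this

include hE0 in
/-- the counting lemma on polynomials, transported to integers -/
theorem count_block (P : F[X]) (hP : P ≠ 0) (Θ : LaurentSeries F) (A L s r : ℕ)
    (hsL : s * P.natDegree + r ≤ L)
    (hs : Function.Surjective (T (embed (P ^ s) * Θ) (L - s * P.natDegree) r))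
    (R : F[X]) (hR : R.degree < (P ^ s).degree) (w : ℕ → F) :
    ((Finset.Ico (A * Fintype.card F ^ L) ((A + 1) * Fintype.card F ^ L)).filter (fun n =>
      (∀ i < r, (embed (digitPoly E n) * Θ).coeff ((i : ℤ) + 1) = w i) ∧
      digitPoly E n % P ^ s = R)).card = Fintype.card F ^ (L - s * P.natDegree - r) := by
  have hPs : P ^ s ≠ 0 := pow_ne_zero _ hP
  have hdeg : (P ^ s).degree = ((s * P.natDegree : ℕ) : WithBot ℕ) := by
    rw [Polynomial.degree_pow, Polynomial.degree_eq_natDegree hP]
    simp
  set a := digitPoly E A with ha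
  set R' := (R - Polynomial.X ^ L * a) % P ^ s with hR'
  have hR'd : R'.degree < (P ^ s).degree := Polynomial.degree_mod_lt _ hPs
  set Z := Polynomial.X ^ L * a + R' with hZ
  have hZR : P ^ s ∣ Z - R := by
    have := dvd_sub_mod (P ^ s) (R - Polynomial.X ^ L * a)
    rw [← hR'] at this
    rw [hZ]
    have h2 : Polynomial.X ^ L * a + R' - R = -(R - Polynomial.X ^ L * a - R') := by ring
    rw [h2]
    exact (dvd_neg).mpr this
  set w' : Fin r → F := fun i => w i - (embed Z * Θ).coeff (((i : ℕ) : ℤ) + 1) with hw'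
  have hfib := card_fiber (embed (P ^ s) * Θ) (L - s * P.natDegree) r (by omega) hs w'
  rw [← hfib]
  set g : degreeLT F (L - s * P.natDegree) → ℕ := fun M => evPoly E (Z + P ^ s * (M : F[X])) with hg
  have hginj : Function.Injective g := by
    intro M M' h
    have h1 := evPoly_injective E hE0 h
    have h2 : P ^ s * (M : F[X]) = P ^ s * (M' : F[X]) := by
      exact add_left_cancel h1
    exact Subtype.ext (mul_left_cancel₀ hPs h2)
  rw [← Set.ncard_image_of_injective _ hginj, ← Set.ncard_coe_finset]
  congr 1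
  ext n
  simp only [Finset.coe_filter, Finset.mem_Ico, Set.mem_ofPred_eq, Set.mem_image]
  constructor
  · rintro ⟨⟨hn1, hn2⟩, hn3, hn4⟩
    obtain ⟨a0, rfl⟩ := Nat.exists_eq_add_of_le hn1
    have ha0 : a0 < Fintype.card F ^ L := by
      rw [add_mul, one_mul] at hn2; omega
    -- x = low part
    set x := digitPoly E a0 with hx
    have hxd : x.degree < L := by
      rw [Polynomial.degree_lt_iff_coeff_zero]
      intro i hi
      rw [hx, digitPoly_coeff E hE0]
      have h2 : a0 / Fintype.card F ^ i % Fintype.card F = 0 := by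
        rw [Nat.div_eq_of_lt (lt_of_lt_of_le ha0 (Nat.pow_le_pow_right Fintype.card_pos hi)),
          Nat.zero_mod]
      simp only [h2]
      rw [E_symm_zero E hE0]
    have hdn : digitPoly E (A * Fintype.card F ^ L + a0) = Polynomial.X ^ L * a + x := by
      apply evPoly_injective E hE0
      rw [evPoly_digitPoly E hE0, evPoly_block E hE0 a x L hxd, ha, hx,
        evPoly_digitPoly E hE0, evPoly_digitPoly E hE0]
    rw [hdn] at hn3 hn4
    have hdv : P ^ s ∣ x - R' := by
      have h1 := dvd_sub_mod (P ^ s) (Polynomial.X ^ L * a + x)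
      rw [hn4] at h1
      have h2 : x - R' = (Polynomial.X ^ L * a + x - R) - (Z - R) := by rw [hZ]; ring
      rw [h2]
      exact dvd_sub h1 hZR
    obtain ⟨M, hM⟩ := hdv
    have hMd : M.degree < ((L - s * P.natDegree : ℕ) : WithBot ℕ) := by
      by_cases hM0 : M = 0
      · rw [hM0, Polynomial.degree_zero]; exact WithBot.bot_lt_coe _
      · have h1 : (P ^ s * M).degree < L := by
          rw [← hM]
          refine lt_of_le_of_lt (Polynomial.degree_sub_le _ _) (max_lt hxd ?_)
          refine lt_of_lt_of_le hR'd ?_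
          rw [hdeg]
          exact_mod_cast (by omega : s * P.natDegree ≤ L)
        rw [Polynomial.degree_mul, hdeg, Polynomial.degree_eq_natDegree hM0] at h1
        rw [Polynomial.degree_eq_natDegree hM0]
        have h2 : s * P.natDegree + M.natDegree < L := by exact_mod_cast h1
        have h3 : M.natDegree < L - s * P.natDegree := by omega
        exact_mod_cast h3
    refine ⟨⟨M, Polynomial.mem_degreeLT.mpr hMd⟩, ?_, ?_⟩
    · ext i
      have h1 := hn3 i i.2
      change (embed M * (embed (P ^ s) * Θ)).coeff (((i : ℕ) : ℤ) + 1) = w' i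
      rw [hw']
      simp only
      rw [← h1]
      have h2 : Polynomial.X ^ L * a + x = Z + P ^ s * M := by
        rw [← hM, hZ]; ring
      rw [h2, embed_add, add_mul, HahnSeries.coeff_add, embed_mul, ← mul_assoc,
        mul_comm (embed M)]
      ring
    · rw [hg]
      simp only
      have h2 : Z + P ^ s * M = Polynomial.X ^ L * a + x := by
        rw [← hM, hZ]; ring
      rw [h2, evPoly_block E hE0 a x L hxd, ha, hx, evPoly_digitPoly E hE0,
        evPoly_digitPoly E hE0]
  · rintro ⟨M, hM, rfl⟩
    have hMd := Polynomial.mem_degreeLT.mp M.2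
    have hxd : (R' + P ^ s * (M : F[X])).degree < L := by
      refine lt_of_le_of_lt (Polynomial.degree_add_le _ _) (max_lt ?_ ?_)
      · refine lt_of_lt_of_le hR'd ?_
        rw [hdeg]
        exact_mod_cast (by omega : s * P.natDegree ≤ L)
      · by_cases hM0 : (M : F[X]) = 0
        · rw [hM0, mul_zero, Polynomial.degree_zero]; exact WithBot.bot_lt_coe _
        · rw [Polynomial.degree_eq_natDegree hM0] at hMd
          have h3 : (M : F[X]).natDegree < L - s * P.natDegree := by exact_mod_cast hMd
          rw [Polynomial.degree_mul, hdeg, Polynomial.degree_eq_natDegree hM0]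
          exact_mod_cast (by omega : s * P.natDegree + (M : F[X]).natDegree < L)
    have hgM : g M = A * Fintype.card F ^ L + evPoly E (R' + P ^ s * (M : F[X])) := by
      rw [hg]
      simp only
      rw [hZ, add_assoc, evPoly_block E hE0 a _ L hxd, ha, evPoly_digitPoly E hE0]
    have hdn : digitPoly E (g M) = Z + P ^ s * (M : F[X]) := by
      rw [hg]
      simp only
      rw [digitPoly_evPoly E hE0]
    have hlt := evPoly_lt E hE0 _ L hxd
    refine ⟨⟨by rw [hgM]; omega, by rw [hgM, add_mul, one_mul]; omega⟩, ?_, ?_⟩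
    · intro i hi
      have h1 : T (embed (P ^ s) * Θ) (L - s * P.natDegree) r M ⟨i, hi⟩ = w' ⟨i, hi⟩ := by
        rw [hM]
      change (embed (M : F[X]) * (embed (P ^ s) * Θ)).coeff ((i : ℤ) + 1) = w' ⟨i, hi⟩ at h1
      rw [hdn, embed_add, add_mul, HahnSeries.coeff_add, embed_mul, mul_comm (embed (P ^ s)),
        mul_assoc, h1, hw']
      simp
    · rw [hdn]
      apply mod_eq_of _ _ _ hPs hR
      have h2 : Z + P ^ s * (M : F[X]) - R = (Z - R) + P ^ s * (M : F[X]) := by ring
      rw [h2]
      exact dvd_add hZR (dvd_mul_right _ _)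


include hE0 in
theorem digitPoly_degree_lt (n m : ℕ) (h : n < Fintype.card F ^ m) :
    (digitPoly E n).degree < m := by
  rw [Polynomial.degree_lt_iff_coeff_zero]
  intro i hi
  rw [digitPoly_coeff E hE0]
  have h2 : n / Fintype.card F ^ i % Fintype.card F = 0 := by
    rw [Nat.div_eq_of_lt (lt_of_lt_of_le h (Nat.pow_le_pow_right Fintype.card_pos hi)),
      Nat.zero_mod]
  simp only [h2]
  rw [E_symm_zero E hE0]

/-- classes of leading digits, first coordinate -/
theorem classK (r : ℕ) : ∀ k, k < Fintype.card F ^ r → ∃ w : ℕ → F, ∀ x : ℕ → F,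
    kNum (Fintype.card F) (fun i => (E (x i) : ℕ)) r = k ↔ ∀ i < r, x i = w i := by
  induction r with
  | zero =>
    intro k hk
    refine ⟨0, fun x => ?_⟩
    have : k = 0 := by simpa using hk
    simp [kNum, this]
  | succ r ih =>
    intro k hk
    have hq : 0 < Fintype.card F := Fintype.card_pos
    have h1 : k / Fintype.card F < Fintype.card F ^ r := by
      rw [Nat.div_lt_iff_lt_mul hq]
      calc k < Fintype.card F ^ (r + 1) := hk
        _ = _ := by ring
    obtain ⟨w, hw⟩ := ih _ h1
    refine ⟨Function.update w r (E.symm ⟨k % Fintype.card F, Nat.mod_lt _ hq⟩), fun x => ?_⟩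
    have h2 : kNum (Fintype.card F) (fun i => (E (x i) : ℕ)) (r + 1) = k ↔
        kNum (Fintype.card F) (fun i => (E (x i) : ℕ)) r = k / Fintype.card F ∧
          (E (x r) : ℕ) = k % Fintype.card F := by
      have hlt : (E (x r) : ℕ) < Fintype.card F := (E (x r)).2
      constructor
      · rintro rfl
        rw [kNum]
        constructor
        · rw [Nat.mul_add_div hq, Nat.div_eq_of_lt hlt, add_zero]
        · rw [Nat.mul_add_mod, Nat.mod_eq_of_lt hlt]
      · rintro ⟨h3, h4⟩
        rw [kNum, h3, h4]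
        exact Nat.div_add_mod _ _
    rw [h2, hw]
    constructor
    · rintro ⟨h3, h4⟩ i hi
      rcases Nat.lt_succ_iff_lt_or_eq.mp hi with h5 | h5
      · rw [Function.update_of_ne (by omega)]
        exact h3 i h5
      · subst h5
        rw [Function.update_self, Equiv.eq_symm_apply]
        exact Fin.ext h4
    · intro h3
      constructor
      · intro i hi
        have := h3 i (by omega)
        rwa [Function.update_of_ne (by omega)] at this
      · have := h3 r (by omega)
        rw [Function.update_self, Equiv.eq_symm_apply] at this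
        rw [this]

include hE0 in
/-- classes of leading digits, second coordinate -/
theorem classV (P : F[X]) (hP : 0 < P.natDegree) (s : ℕ) :
    ∀ v, v < (Fintype.card F ^ P.natDegree) ^ s → ∃ R : F[X], R.degree < (P ^ s).degree ∧
    ∀ p : F[X], kNum (Fintype.card F ^ P.natDegree)
      (fun i => evPoly E ((p / P ^ i) % P)) s = v ↔ p % P ^ s = R := by
  have hP0 : P ≠ 0 := by rintro rfl; simp at hP
  have hPd : P.degree = (P.natDegree : WithBot ℕ) := Polynomial.degree_eq_natDegree hP0
  induction s with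
  | zero =>
    intro v hv
    refine ⟨0, ?_, fun p => ?_⟩
    · simp
    · have : v = 0 := by simpa using hv
      subst this
      simp [kNum, EuclideanDomain.mod_one]
  | succ s ih =>
    intro v hv
    set Q := Fintype.card F ^ P.natDegree with hQdef
    have hQ : 0 < Q := pow_pos Fintype.card_pos _
    have h1 : v / Q < Q ^ s := by
      rw [Nat.div_lt_iff_lt_mul hQ]
      calc v < Q ^ (s + 1) := hv
        _ = _ := by ring
    obtain ⟨R0, hR0, hw⟩ := ih _ h1
    set b := digitPoly E (v % Q) with hb
    have hbd : b.degree < P.degree := by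
      rw [hPd]
      exact digitPoly_degree_lt E hE0 _ _ (Nat.mod_lt _ hQ)
    have hPs : P ^ s ≠ 0 := pow_ne_zero _ hP0
    have hPs1 : P ^ (s + 1) ≠ 0 := pow_ne_zero _ hP0
    have hdegs : (P ^ (s + 1)).degree = (P ^ s).degree + P.degree := by
      rw [pow_succ, Polynomial.degree_mul]
    have hRd : (R0 + P ^ s * b).degree < (P ^ (s + 1)).degree := by
      refine lt_of_le_of_lt (Polynomial.degree_add_le _ _) (max_lt ?_ ?_)
      · refine lt_of_lt_of_le hR0 ?_
        rw [Polynomial.degree_pow, Polynomial.degree_pow, hPd]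
        simp only [nsmul_eq_mul]
        exact_mod_cast (by nlinarith : s * P.natDegree ≤ (s + 1) * P.natDegree)
      · rw [Polynomial.degree_mul, hdegs]
        exact WithBot.add_lt_add_left (Polynomial.degree_ne_bot.mpr hPs) hbd
    refine ⟨R0 + P ^ s * b, hRd, fun p => ?_⟩
    have hlt : evPoly E ((p / P ^ s) % P) < Q :=
      evPoly_lt E hE0 _ _ (by rw [← hPd]; exact Polynomial.degree_mod_lt _ hP0)
    have h2 : kNum Q (fun i => evPoly E ((p / P ^ i) % P)) (s + 1) = v ↔
        kNum Q (fun i => evPoly E ((p / P ^ i) % P)) s = v / Q ∧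
          evPoly E ((p / P ^ s) % P) = v % Q := by
      constructor
      · rintro rfl
        rw [kNum]
        constructor
        · rw [Nat.mul_add_div hQ, Nat.div_eq_of_lt hlt, add_zero]
        · rw [Nat.mul_add_mod, Nat.mod_eq_of_lt hlt]
      · rintro ⟨h3, h4⟩
        rw [kNum, h3, h4]
        exact Nat.div_add_mod _ _
    rw [h2, hw]
    have h3 : evPoly E ((p / P ^ s) % P) = v % Q ↔ (p / P ^ s) % P = b := by
      constructor
      · intro h
        rw [hb, ← h, digitPoly_evPoly E hE0]
      · intro h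
        rw [h, hb, evPoly_digitPoly E hE0]
    rw [h3]
    constructor
    · rintro ⟨h4, h5⟩
      apply mod_eq_of _ _ _ hPs1 hRd
      have h6 := EuclideanDomain.div_add_mod p (P ^ s)
      have h7 := EuclideanDomain.div_add_mod (p / P ^ s) P
      rw [h4] at h6
      rw [h5] at h7
      refine ⟨p / P ^ s / P, ?_⟩
      linear_combination (-1) * h6 - P ^ s * h7
    · intro h4
      have h5 := EuclideanDomain.div_add_mod p (P ^ (s + 1))
      rw [h4] at h5
      have h6 : p % P ^ s = R0 := by
        apply mod_eq_of _ _ _ hPs hR0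
        refine ⟨P * (p / P ^ (s + 1)) + b, ?_⟩
        linear_combination (-1) * h5
      refine ⟨h6, ?_⟩
      have h7 := EuclideanDomain.div_add_mod p (P ^ s)
      rw [h6] at h7
      have h8 : p / P ^ s = P * (p / P ^ (s + 1)) + b := by
        apply mul_left_cancel₀ hPs
        linear_combination h7 - h5
      apply mod_eq_of _ _ _ hP0 hbd
      refine ⟨p / P ^ (s + 1), ?_⟩
      rw [h8]; ring


include hE0 in
/-- all boxes of volume at least `q^(c-L)` contain the right number of points of each block -/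
theorem box_count (P : F[X]) (hP : 0 < P.natDegree) (Θ : LaurentSeries F) (hΘ : Θ ∈ Bad P) :
    ∃ c : ℕ, ∀ A L s r, s * P.natDegree + r + c ≤ L → ∀ k < Fintype.card F ^ r,
      ∀ v < (Fintype.card F ^ P.natDegree) ^ s,
      ((blk (Fintype.card F) A L).filter (fun n =>
        kNum (Fintype.card F)
          (fun i => (E ((embed (digitPoly E n) * Θ).coeff ((i : ℤ) + 1)) : ℕ)) r = k ∧
        kNum (Fintype.card F ^ P.natDegree)
          (fun i => evPoly E ((digitPoly E n / P ^ i) % P)) s = v)).card =
      Fintype.card F ^ (L - s * P.natDegree - r) := by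
  have hP0 : P ≠ 0 := by rintro rfl; simp at hP
  obtain ⟨c, hc⟩ := bad_surj P Θ hΘ
  refine ⟨c, ?_⟩
  intro A L s r hL k hk v hv
  obtain ⟨w, hw⟩ := classK E r k hk
  obtain ⟨R, hR, hRv⟩ := classV E hE0 P hP s v hv
  rw [← count_block E hE0 P hP0 Θ A L s r (by omega)
    (hc s (L - s * P.natDegree) r (by omega)) R hR w]
  unfold blk
  congr 1
  apply Finset.filter_congr
  intro n _
  rw [hw (fun i => (embed (digitPoly E n) * Θ).coeff ((i : ℤ) + 1)), hRv]

theorem abs_aux (x g N : ℝ) (hN : 0 < N) : |1 / N * x - g| * N = |x - g * N| := by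
  have h : x - g * N = (1 / N * x - g) * N := by field_simp
  rw [h, abs_mul, abs_of_pos hN]

include hE0 in
/-- **Main theorem.** For every `Θ ∈ Bad(P,q)` the hybrid sequence is low discrepancy. -/
theorem low_discrepancy (P : F[X]) (hP : 0 < P.natDegree) (Θ : LaurentSeries F)
    (hΘ : Θ ∈ Bad P) :
    LowDiscrepancy (fun n => (kronecker E Θ n, vanDerCorput E P n)) := by
  obtain ⟨c, hc⟩ := box_count E hE0 P hP Θ hΘ
  have hq : 2 ≤ Fintype.card F := Fintype.one_lt_card
  have hP0 : P ≠ 0 := by rintro rfl; simp at hP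
  have hPd : P.degree = (P.natDegree : WithBot ℕ) := Polynomial.degree_eq_natDegree hP0
  obtain ⟨C, hC0, hC⟩ := lemF (Fintype.card F) P.natDegree c hq hP
    (fun n i => (E ((embed (digitPoly E n) * Θ).coeff ((i : ℤ) + 1)) : ℕ))
    (fun n i => evPoly E ((digitPoly E n / P ^ i) % P))
    (fun n i => (E _).2)
    (fun n i => evPoly_lt E hE0 _ _ (by rw [← hPd]; exact Polynomial.degree_mod_lt _ hP0))
    hc
  have hK : ∀ n, kronecker E Θ n = ∑' i : ℕ,
      (((E ((embed (digitPoly E n) * Θ).coeff ((i : ℤ) + 1)) : ℕ)) : ℝ) /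
        (Fintype.card F : ℝ) ^ (i + 1) := by
    intro n
    unfold kronecker evFrac
    apply tsum_congr
    intro i
    have : (frac (embed (digitPoly E n) * Θ)).coeff ((i : ℤ) + 1) =
        (embed (digitPoly E n) * Θ).coeff ((i : ℤ) + 1) := by
      change (if 1 ≤ (i : ℤ) + 1 then _ else 0) = _
      rw [if_pos (by omega)]
    rw [this]
  have hV : ∀ n, vanDerCorput E P n = ∑' i : ℕ,
      (evPoly E ((digitPoly E n / P ^ i) % P) : ℝ) /
        ((Fintype.card F ^ P.natDegree : ℕ) : ℝ) ^ (i + 1) := by
    intro n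
    unfold vanDerCorput
    push_cast
    rfl
  have hK0 : ∀ n, 0 ≤ kronecker E Θ n := by
    intro n
    rw [hK]
    exact tsum_nonneg (fun i => by positivity)
  have hV0 : ∀ n, 0 ≤ vanDerCorput E P n := by
    intro n
    rw [hV]
    exact tsum_nonneg (fun i => by positivity)
  refine ⟨C, fun N hN => ?_⟩
  have hNpos : (0 : ℝ) < N := by
    have : 0 < N := by omega
    exact_mod_cast this
  unfold starDisc
  apply ciSup_le
  rintro ⟨⟨γ, h0, h1⟩, ⟨lam, g0, g1⟩⟩
  have key := hC N hN γ lam h0 h1 g0 g1
  have hset : {n : ℕ | n < N ∧ (kronecker E Θ n, vanDerCorput E P n) ∈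
      Set.Ico (0 : ℝ) γ ×ˢ Set.Ico (0 : ℝ) lam} =
      ↑((Finset.range N).filter (fun n =>
        (∑' i : ℕ, (((E ((embed (digitPoly E n) * Θ).coeff ((i : ℤ) + 1)) : ℕ)) : ℝ) /
        (Fintype.card F : ℝ) ^ (i + 1)) < γ ∧
        (∑' i : ℕ, (evPoly E ((digitPoly E n / P ^ i) % P) : ℝ) /
        ((Fintype.card F ^ P.natDegree : ℕ) : ℝ) ^ (i + 1)) < lam)) := by
    ext n
    simp only [Set.mem_ofPred_eq, Set.mem_prod, Set.mem_Ico, Finset.coe_filter, Finset.mem_range]
    rw [← hK, ← hV]
    constructor
    · rintro ⟨h, ⟨_, h2⟩, ⟨_, h3⟩⟩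
      exact ⟨h, h2, h3⟩
    · rintro ⟨h, h2, h3⟩
      exact ⟨h, ⟨hK0 n, h2⟩, ⟨hV0 n, h3⟩⟩
  simp only [hset, Set.ncard_coe_finset]
  rw [le_div_iff₀ hNpos]
  refine le_trans (le_of_eq ?_) key
  exact abs_aux _ _ _ hNpos

end Aux
end Pool.Agent.Lib.MP_05fa0d_nt
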